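import Mathlib

/-!
# Sums of squares of nonzero integers
-/

namespace Pool.Agent.H73.ED

open scoped BigOperators

/-- Every integer `n ≥ 170` is a sum of five squares of nonzero integers. -/
theorem five_squares (n : ℕ) (hn : 170 ≤ n) : ∃ a b c d e : ℕ, a ≠ 0 ∧ b ≠ 0 ∧ c ≠ 0 ∧ d ≠ 0 ∧
    e ≠ 0 ∧ a ^ 2 + b ^ 2 + c ^ 2 + d ^ 2 + e ^ 2 = n := by
  obtain ⟨w, x, y, z, h⟩ := Nat.sum_four_squares (n - 169)
  have h' : w ^ 2 + x ^ 2 + y ^ 2 + z ^ 2 + 169 = n := by omega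
  -- sorted by the number of zeros
  have four : ∀ p q r s : ℕ, p ^ 2 + q ^ 2 + r ^ 2 + s ^ 2 + 169 = n → p ≠ 0 → q ≠ 0 → r ≠ 0 →
      s ≠ 0 → ∃ a b c d e : ℕ, a ≠ 0 ∧ b ≠ 0 ∧ c ≠ 0 ∧ d ≠ 0 ∧
        e ≠ 0 ∧ a ^ 2 + b ^ 2 + c ^ 2 + d ^ 2 + e ^ 2 = n := by
    intro p q r s hs hp hq hr hs0
    exact ⟨p, q, r, s, 13, hp, hq, hr, hs0, by norm_num, by omega⟩
  have three : ∀ p q r : ℕ, p ^ 2 + q ^ 2 + r ^ 2 + 169 = n → p ≠ 0 → q ≠ 0 → r ≠ 0 →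
      ∃ a b c d e : ℕ, a ≠ 0 ∧ b ≠ 0 ∧ c ≠ 0 ∧ d ≠ 0 ∧
        e ≠ 0 ∧ a ^ 2 + b ^ 2 + c ^ 2 + d ^ 2 + e ^ 2 = n := by
    intro p q r hs hp hq hr
    exact ⟨p, q, r, 5, 12, hp, hq, hr, by norm_num, by norm_num, by omega⟩
  have two : ∀ p q : ℕ, p ^ 2 + q ^ 2 + 169 = n → p ≠ 0 → q ≠ 0 →
      ∃ a b c d e : ℕ, a ≠ 0 ∧ b ≠ 0 ∧ c ≠ 0 ∧ d ≠ 0 ∧
        e ≠ 0 ∧ a ^ 2 + b ^ 2 + c ^ 2 + d ^ 2 + e ^ 2 = n := by
    intro p q hs hp hq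
    exact ⟨p, q, 3, 4, 12, hp, hq, by norm_num, by norm_num, by norm_num, by omega⟩
  have one : ∀ p : ℕ, p ^ 2 + 169 = n → p ≠ 0 →
      ∃ a b c d e : ℕ, a ≠ 0 ∧ b ≠ 0 ∧ c ≠ 0 ∧ d ≠ 0 ∧
        e ≠ 0 ∧ a ^ 2 + b ^ 2 + c ^ 2 + d ^ 2 + e ^ 2 = n := by
    intro p hs hp
    exact ⟨p, 1, 2, 8, 10, hp, by norm_num, by norm_num, by norm_num, by norm_num, by omega⟩
  by_cases hw : w = 0 <;> by_cases hx : x = 0 <;> by_cases hy : y = 0 <;> by_cases hz : z = 0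
  · subst hw hx hy hz; omega
  · subst hw hx hy; exact one z (by omega) hz
  · subst hw hx hz; exact one y (by omega) hy
  · subst hw hx; exact two y z (by omega) hy hz
  · subst hw hy hz; exact one x (by omega) hx
  · subst hw hy; exact two x z (by omega) hx hz
  · subst hw hz; exact two x y (by omega) hx hy
  · subst hw; exact three x y z (by omega) hx hy hz
  · subst hx hy hz; exact one w (by omega) hw
  · subst hx hy; exact two w z (by omega) hw hz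
  · subst hx hz; exact two w y (by omega) hw hy
  · subst hx; exact three w y z (by omega) hw hy hz
  · subst hy hz; exact two w x (by omega) hw hx
  · subst hy; exact three w x z (by omega) hw hx hz
  · subst hz; exact three w x y (by omega) hw hx hy
  · exact four w x y z h' hw hx hy hz

/-- Seven squares. -/
theorem seven_squares (n : ℕ) (hn : 172 ≤ n) : ∃ a : Fin 7 → ℤ, (∀ j, a j ≠ 0) ∧
    ∑ j, a j ^ 2 = (n : ℤ) := by
  obtain ⟨a, b, c, d, e, ha, hb, hc, hd, he, h⟩ := five_squares (n - 2) (by omega)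
  refine ⟨![a, b, c, d, e, 1, 1], ?_, ?_⟩
  · intro j
    fin_cases j <;> simp [ha, hb, hc, hd, he]
  · have : (a : ℤ) ^ 2 + b ^ 2 + c ^ 2 + d ^ 2 + e ^ 2 + 2 = n := by
      have h' : a ^ 2 + b ^ 2 + c ^ 2 + d ^ 2 + e ^ 2 + 2 = n := by omega
      exact_mod_cast h'
    rw [← this]
    simp [Fin.sum_univ_succ]
    ring

/-- Eight squares, among them `1` and `2`. -/
theorem eight_squares (n : ℕ) (hn : 176 ≤ n) : ∃ a : Fin 8 → ℤ, (∀ j, a j ≠ 0) ∧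
    ∑ j, a j ^ 2 = (n : ℤ) ∧ a 0 = 1 ∧ a 1 = 2 := by
  obtain ⟨a, b, c, d, e, ha, hb, hc, hd, he, h⟩ := five_squares (n - 6) (by omega)
  refine ⟨![1, 2, 1, a, b, c, d, e], ?_, ?_, rfl, rfl⟩
  · intro j
    fin_cases j <;> simp [ha, hb, hc, hd, he]
  · have : (a : ℤ) ^ 2 + b ^ 2 + c ^ 2 + d ^ 2 + e ^ 2 + 6 = n := by
      have h' : a ^ 2 + b ^ 2 + c ^ 2 + d ^ 2 + e ^ 2 + 6 = n := by omega
      exact_mod_cast h'
    rw [← this]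
    simp [Fin.sum_univ_succ]
    ring

end Pool.Agent.H73.ED
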