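import Pool.Agent.H73.ED.Blocks
import Pool.Agent.H73.ED.Five

/-!
# Module A: the types `(1, d)` with `d N = 9 u^2` and `240 ≤ N ≤ 252`
-/

namespace Pool.Agent.H73.ED

open Pool.Agent.H50.ED
open scoped BigOperators

theorem w28 : Wt3 28 :=
  wt3_of 28 1 2 4 0 1 2 4 (by norm_num) (by norm_num) (by norm_num) (by norm_num)
    (by norm_num) (by norm_num) (by norm_num) (by norm_num) (by norm_num) (by norm_num) (Or.inl (by decide))

theorem w62 : Wt3 62 :=
  wt3_of 62 2 2 9 0 1 2 4 (by norm_num) (by norm_num) (by norm_num) (by norm_num)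
    (by norm_num) (by norm_num) (by norm_num) (by norm_num) (by norm_num) (by norm_num) (Or.inr (Or.inr (by decide)))

theorem w63 : Wt3 63 :=
  wt3_of 63 3 4 9 0 1 2 3 (by norm_num) (by norm_num) (by norm_num) (by norm_num)
    (by norm_num) (by norm_num) (by norm_num) (by norm_num) (by norm_num) (by norm_num) (Or.inl (by decide))

theorem w90 : Wt3 90 :=
  wt3_of 90 3 6 10 0 1 2 4 (by norm_num) (by norm_num) (by norm_num) (by norm_num)
    (by norm_num) (by norm_num) (by norm_num) (by norm_num) (by norm_num) (by norm_num) (Or.inl (by decide))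

theorem w247 : Wt3 247 :=
  wt3_of 247 4 13 17 0 1 2 3 (by norm_num) (by norm_num) (by norm_num) (by norm_num)
    (by norm_num) (by norm_num) (by norm_num) (by norm_num) (by norm_num) (by norm_num) (Or.inr (Or.inl (by decide)))

theorem w249 : Wt3 249 :=
  wt3_of 249 1 6 21 0 1 2 3 (by norm_num) (by norm_num) (by norm_num) (by norm_num)
    (by norm_num) (by norm_num) (by norm_num) (by norm_num) (by norm_num) (by norm_num) (Or.inl (by decide))

theorem w251 : Wt3 251 :=
  wt3_of 251 1 9 20 0 1 2 3 (by norm_num) (by norm_num) (by norm_num) (by norm_num)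
    (by norm_num) (by norm_num) (by norm_num) (by norm_num) (by norm_num) (by norm_num) (Or.inl (by decide))

theorem sq24 (q : ℕ) (h2 : q % 2 = 1) (h3 : q % 3 ≠ 0) : q ^ 2 % 48 = 1 ∨ q ^ 2 % 48 = 25 := by
  have : q % 24 < 24 := Nat.mod_lt _ (by norm_num)
  have h : q % 48 < 48 := Nat.mod_lt _ (by norm_num)
  have e : q ^ 2 % 48 = (q % 48) ^ 2 % 48 := by rw [Nat.pow_mod]
  have a2 : (q % 48) % 2 = 1 := by omega
  have a3 : (q % 48) % 3 ≠ 0 := by omega
  rw [e]
  interval_cases q % 48 <;> simp_all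

theorem sq_ge (q : ℕ) (h : 5 ≤ q) : 25 ≤ q ^ 2 := by nlinarith

/-- the family `7 q^2`. -/
theorem fam7 (q : ℕ) (h2 : q % 2 = 1) (h3 : q % 3 ≠ 0) (h5 : 5 ≤ q) : Wt3 (7 * q ^ 2) := by
  have hq := sq_ge q h5
  generalize hQ : q ^ 2 = Q at hq
  rcases sq24 q h2 h3 with h | h <;> rw [hQ] at h
  · exact lagrange_one 3 0 ((7 * Q - 9) / 2) (by omega) (by norm_num) (by norm_num) _ (by
      push_cast; omega)
  · exact lagrange_one 9 0 ((7 * Q - 81) / 2) (by omega) (by norm_num) (by norm_num) _ (by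
      push_cast; omega)

/-- the square class of `d`. -/
theorem shape (d s n u : ℕ) (hs : Squarefree s) (hn : n ≠ 0) (hd : 0 < d)
    (h : d * (s * n ^ 2) = 9 * u ^ 2) : ∃ v, 0 < v ∧ d = s * v ^ 2 ∧ 3 ∣ s * v * n := by
  have hs0 : 0 < s := Nat.pos_of_ne_zero hs.ne_zero
  have h1 : n ^ 2 ∣ (3 * u) ^ 2 := ⟨d * s, by linarith⟩
  obtain ⟨k, hk⟩ := (Nat.pow_dvd_pow_iff two_ne_zero).mp h1
  have h2 : d * s = k ^ 2 := by
    have : n ^ 2 * (d * s) = n ^ 2 * k ^ 2 := by
      have e : (3 * u) ^ 2 = n ^ 2 * k ^ 2 := by rw [hk]; ring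
      rw [← e]; linarith
    exact Nat.eq_of_mul_eq_mul_left (by positivity) this
  have h3 : s ∣ k := (hs.dvd_pow_iff_dvd two_ne_zero).mp ⟨d, by rw [← h2]; ring⟩
  obtain ⟨v, rfl⟩ := h3
  have h4 : d = s * v ^ 2 := by
    have : s * d = s * (s * v ^ 2) := by linarith
    exact Nat.eq_of_mul_eq_mul_left hs0 this
  refine ⟨v, ?_, h4, ⟨u, by linarith⟩⟩
  rcases Nat.eq_zero_or_pos v with h | h
  · rw [h] at h4; simp at h4; omega
  · exact h

/-- `3` divides `v` when it does not divide `s` and `n`. -/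
theorem three_dvd {s v n : ℕ} (h : 3 ∣ s * v * n) (hs : ¬ 3 ∣ s) (hn : ¬ 3 ∣ n) :
    ∃ w, v = 3 * w := by
  rcases (Nat.Prime.dvd_mul Nat.prime_three).mp h with h | h
  · rcases (Nat.Prime.dvd_mul Nat.prime_three).mp h with h | h
    · exact absurd h hs
    · exact h
  · exact absurd h hn

/-- a positive integer is even, or divisible by 3, or 1, or at least 5 and prime to 6. -/
theorem cases_six (v : ℕ) (hv : 0 < v) : (∃ w, 0 < w ∧ v = 2 * w) ∨ (∃ w, 0 < w ∧ v = 3 * w) ∨
    v = 1 ∨ (v % 2 = 1 ∧ v % 3 ≠ 0 ∧ 5 ≤ v) := by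
  by_cases h2 : v % 2 = 0
  · left; exact ⟨v / 2, by omega, by omega⟩
  · by_cases h3 : v % 3 = 0
    · right; left; exact ⟨v / 3, by omega, by omega⟩
    · by_cases h1 : v = 1
      · right; right; left; exact h1
      · right; right; right; exact ⟨by omega, h3, by omega⟩

theorem scale' {t d : ℕ} (h : Wt3 t) (n : ℕ) (hn : 0 < n) (e : d = t * n ^ 2) : Wt3 d := by
  rw [e]; exact wt3_scale h (by omega)

theorem case252 (v : ℕ) (hv : 0 < v) : v = 1 ∨ Wt3 (7 * v ^ 2) := by
  rcases cases_six v hv with ⟨w, hw, rfl⟩ | ⟨w, hw, rfl⟩ | h | ⟨h2, h3, h5⟩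
  · right; exact scale' w28 w hw (by ring)
  · right; exact scale' w63 w hw (by ring)
  · left; exact h
  · right; exact fam7 v h2 h3 h5

theorem seven_large (d : ℕ) (h : 86 ≤ d) : Wt5 d := by
  obtain ⟨a, h1, h2⟩ := seven_squares (2 * d) (by omega)
  exact ⟨a, h1, by rw [h2]; push_cast; ring⟩

theorem eight_large (d : ℕ) (h : 88 ≤ d) : Wt4 d := by
  obtain ⟨a, h1, h2, h3, h4⟩ := eight_squares (2 * d) (by omega)
  refine ⟨a, h1, by rw [h2]; push_cast; ring, ?_⟩
  intro x hx
  obtain ⟨n, hn⟩ := hx 0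
  obtain ⟨m, hm⟩ := hx 1
  rw [h3] at hn
  rw [h4] at hm
  have h5 : x = n + 1 / 2 := by simpa using hn
  have h6 : (2 : ℚ) * x = m + 1 / 2 := by simpa using hm
  rw [h5] at h6
  have h7 : (4 : ℚ) * n + 1 = 2 * m := by linarith
  have h8 : 4 * n + 1 = 2 * m := by exact_mod_cast h7
  omega

theorem s12 : Wt5 12 := ⟨![1, 1, 1, 2, 2, 2, 3], by decide, by decide⟩
theorem s15 : Wt5 15 := ⟨![1, 1, 1, 1, 1, 3, 4], by decide, by decide⟩
theorem s18 : Wt5 18 := ⟨![1, 1, 1, 2, 2, 3, 4], by decide, by decide⟩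
theorem s27 : Wt5 27 := ⟨![1, 1, 1, 1, 3, 4, 5], by decide, by decide⟩
theorem s48 : Wt5 48 := ⟨![1, 1, 1, 2, 2, 2, 9], by decide, by decide⟩
theorem s60 : Wt5 60 := ⟨![1, 1, 1, 1, 4, 6, 8], by decide, by decide⟩
theorem s72 : Wt5 72 := ⟨![1, 1, 1, 1, 2, 6, 10], by decide, by decide⟩
theorem s75 : Wt5 75 := ⟨![1, 1, 1, 1, 1, 1, 12], by decide, by decide⟩

theorem w45' : Wt4 45 := by
  refine ⟨![1, 2, 1, 1, 1, 3, 3, 8], by decide, by decide, ?_⟩
  intro x hx
  obtain ⟨n, hn⟩ := hx 0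
  obtain ⟨m, hm⟩ := hx 1
  have h5 : x = n + 1 / 2 := by simpa using hn
  have h6 : (2 : ℚ) * x = m + 1 / 2 := by simpa using hm
  rw [h5] at h6
  have h7 : (4 : ℚ) * n + 1 = 2 * m := by linarith
  have h8 : 4 * n + 1 = 2 * m := by exact_mod_cast h7
  omega

/-- MODULE A. -/
theorem arith : ArithStatement := by
  intro d N u hd h h1 h2
  -- `N = s n^2`, `s` prime to 3
  have mid : ∀ s n : ℕ, Squarefree s → n ≠ 0 → ¬ 3 ∣ s → ¬ 3 ∣ n → N = s * n ^ 2 →
      ∃ w, 0 < w ∧ d = 9 * s * w ^ 2 := by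
    intro s n hs hn h3 h4 hN
    obtain ⟨v, hv, hv2, hv3⟩ := shape d s n u hs hn hd (by rw [← hN]; exact h)
    obtain ⟨w, rfl⟩ := three_dvd hv3 h3 h4
    exact ⟨w, by omega, by rw [hv2]; ring⟩
  have easy : ∀ s n : ℕ, Squarefree s → n ≠ 0 → N = s * n ^ 2 → ∃ v, 0 < v ∧ d = s * v ^ 2 := by
    intro s n hs hn hN
    obtain ⟨v, hv, hv2, -⟩ := shape d s n u hs hn hd (by rw [← hN]; exact h)
    exact ⟨v, hv, hv2⟩
  have sq1 : ∀ v : ℕ, 0 < v → 1 ≤ v ^ 2 := fun v hv => Nat.one_le_pow _ _ hv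
  interval_cases N
  · left
    refine ⟨by norm_num, ?_⟩
    obtain ⟨v, hv, hv2⟩ := easy 15 4 (by decide +kernel) (by norm_num) (by norm_num)
    by_cases h3 : 3 ≤ v
    · exact seven_large d (by rw [hv2]; nlinarith)
    · have : v = 1 ∨ v = 2 := by omega
      rcases this with rfl | rfl
      · rw [hv2]; exact s15
      · rw [hv2]; exact s60
  · left
    refine ⟨by norm_num, ?_⟩
    obtain ⟨v, hv, hv2⟩ := easy 241 1 (by decide +kernel) (by norm_num) (by norm_num)
    have := sq1 v hv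
    exact seven_large d (by rw [hv2]; omega)
  · left
    refine ⟨by norm_num, ?_⟩
    obtain ⟨w, hw, hw2⟩ := mid 2 11 (by decide +kernel) (by norm_num) (by norm_num) (by norm_num)
      (by norm_num)
    by_cases h3 : 3 ≤ w
    · exact seven_large d (by rw [hw2]; nlinarith)
    · have : w = 1 ∨ w = 2 := by omega
      rcases this with rfl | rfl
      · rw [hw2]; exact s18
      · rw [hw2]; exact s72
  · obtain ⟨v, hv, hv2⟩ := easy 3 9 (by decide +kernel) (by norm_num) (by norm_num)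
    by_cases h3 : 6 ≤ v
    · exact Or.inl ⟨by norm_num, seven_large d (by rw [hv2]; nlinarith)⟩
    · have : v = 1 ∨ v = 2 ∨ v = 3 ∨ v = 4 ∨ v = 5 := by omega
      rcases this with rfl | rfl | rfl | rfl | rfl
      · right; right; left; exact ⟨by omega, rfl⟩
      · left; refine ⟨by norm_num, ?_⟩; rw [hv2]; exact s12
      · left; refine ⟨by norm_num, ?_⟩; rw [hv2]; exact s27
      · left; refine ⟨by norm_num, ?_⟩; rw [hv2]; exact s48
      · left; refine ⟨by norm_num, ?_⟩; rw [hv2]; exact s75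
  · right; left
    refine ⟨by norm_num, ?_⟩
    obtain ⟨w, hw, hw2⟩ := mid 61 2 (by decide +kernel) (by norm_num) (by norm_num) (by norm_num)
      (by norm_num)
    have := sq1 w hw
    exact eight_large d (by rw [hw2]; omega)
  · right; left
    refine ⟨by norm_num, ?_⟩
    obtain ⟨w, hw, hw2⟩ := mid 5 7 (by decide +kernel) (by norm_num) (by norm_num) (by norm_num)
      (by norm_num)
    by_cases h3 : 2 ≤ w
    · exact eight_large d (by rw [hw2]; nlinarith)
    · have : w = 1 := by omega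
      subst this
      rw [hw2]; exact w45'
  · right; left
    refine ⟨by norm_num, ?_⟩
    obtain ⟨v, hv, hv2⟩ := easy 246 1 (by decide +kernel) (by norm_num) (by norm_num)
    have := sq1 v hv
    exact eight_large d (by rw [hv2]; omega)
  · right; right; right; right
    obtain ⟨v, hv, hv2⟩ := easy 247 1 (by decide +kernel) (by norm_num) (by norm_num)
    exact scale' w247 v hv hv2
  · right; right; right; right
    obtain ⟨v, hv, hv2⟩ := easy 62 2 (by decide +kernel) (by norm_num) (by norm_num)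
    exact scale' w62 v hv hv2
  · right; right; right; right
    obtain ⟨v, hv, hv2⟩ := easy 249 1 (by decide +kernel) (by norm_num) (by norm_num)
    exact scale' w249 v hv hv2
  · right; right; right; right
    obtain ⟨w, hw, hw2⟩ := mid 10 5 (by decide +kernel) (by norm_num) (by norm_num) (by norm_num)
      (by norm_num)
    exact scale' w90 w hw hw2
  · right; right; right; right
    obtain ⟨v, hv, hv2⟩ := easy 251 1 (by decide +kernel) (by norm_num) (by norm_num)
    exact scale' w251 v hv hv2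
  · obtain ⟨v, hv, hv2⟩ := easy 7 6 (by decide +kernel) (by norm_num) (by norm_num)
    rcases case252 v hv with h | h
    · subst h; right; right; right; left; exact ⟨by omega, rfl⟩
    · right; right; right; right; rw [hv2]; exact h

end Pool.Agent.H73.ED
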