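import Pool.Agent.H50.ED.Spec

/-!
# The order function of the theta blocks: positivity
-/

namespace Pool.Agent.H73.ED

open Pool.Agent.H50.ED
open scoped BigOperators

/-- the contribution of `theta_a` to twice the order function. -/
def ter (y : ℚ) : ℚ := (Int.fract y - 1 / 2) ^ 2

theorem ter_nonneg (y : ℚ) : 0 ≤ ter y := sq_nonneg _

theorem ter_pos {y : ℚ} (h : ∀ n : ℤ, y ≠ n + 1 / 2) : 0 < ter y := by
  refine lt_of_le_of_ne (ter_nonneg y) fun h0 => ?_
  have h1 : Int.fract y - 1 / 2 = 0 := by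
    have : (Int.fract y - 1 / 2) ^ 2 = 0 := h0.symm
    exact pow_eq_zero_iff two_ne_zero |>.mp this
  apply h ⌊y⌋
  have := Int.floor_add_fract y
  linarith

theorem fract_rel (a b c : ℚ) (h : a + b = c) :
    Int.fract a + Int.fract b - Int.fract c = 0 ∨ Int.fract a + Int.fract b - Int.fract c = 1 := by
  obtain ⟨z, hz⟩ := Int.fract_add a b
  rw [h] at hz
  have h1 := Int.fract_nonneg a
  have h2 := Int.fract_nonneg b
  have h3 := Int.fract_nonneg c
  have h4 := Int.fract_lt_one a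
  have h5 := Int.fract_lt_one b
  have h6 := Int.fract_lt_one c
  have h7 : (z : ℚ) < 1 := by linarith
  have h8 : (-2 : ℚ) < z := by linarith
  have h9 : z < 1 := by exact_mod_cast h7
  have h10 : -2 < z := by exact_mod_cast h8
  have : z = 0 ∨ z = -1 := by omega
  rcases this with rfl | rfl
  · left; push_cast at hz; linarith
  · right; push_cast at hz; linarith

/-- FOUR POINTS OF THE CIRCLE: the six terms have a sum of at least `1/4`, with equality only if the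
points are equidistant. -/
theorem circle_four (p : Fin 4 → ℚ) :
    1 / 4 ≤ ter (p 0 - p 1) + ter (p 0 - p 2) + ter (p 0 - p 3) + ter (p 1 - p 2) +
        ter (p 1 - p 3) + ter (p 2 - p 3) ∧
      (ter (p 0 - p 1) + ter (p 0 - p 2) + ter (p 0 - p 3) + ter (p 1 - p 2) +
        ter (p 1 - p 3) + ter (p 2 - p 3) = 1 / 4 →
        ∀ i j : Fin 4, i < j → Int.fract (p i - p j) = 1 / 4 ∨ Int.fract (p i - p j) = 1 / 2 ∨
          Int.fract (p i - p j) = 3 / 4) := by
  unfold ter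
  have h1 := fract_rel (p 0 - p 1) (p 1 - p 2) (p 0 - p 2) (by ring)
  have h2 := fract_rel (p 0 - p 1) (p 1 - p 3) (p 0 - p 3) (by ring)
  have h3 := fract_rel (p 0 - p 2) (p 2 - p 3) (p 0 - p 3) (by ring)
  have h4 := fract_rel (p 1 - p 2) (p 2 - p 3) (p 1 - p 3) (by ring)
  generalize hz1 : Int.fract (p 0 - p 1) = z1 at *
  generalize hz2 : Int.fract (p 0 - p 2) = z2 at *
  generalize hz3 : Int.fract (p 0 - p 3) = z3 at *
  generalize hz4 : Int.fract (p 1 - p 2) = z4 at *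
  generalize hz5 : Int.fract (p 1 - p 3) = z5 at *
  generalize hz6 : Int.fract (p 2 - p 3) = z6 at *
  -- the identity, with `r` the vector of the centre
  have key : ∀ r1 r2 r3 r4 r5 r6 : ℚ,
      (z1 - 1 / 2) ^ 2 + (z2 - 1 / 2) ^ 2 + (z3 - 1 / 2) ^ 2 + (z4 - 1 / 2) ^ 2 +
        (z5 - 1 / 2) ^ 2 + (z6 - 1 / 2) ^ 2 = 1 / 4 + ((z1 - r1) ^ 2 + (z2 - r2) ^ 2 +
        (z3 - r3) ^ 2 + (z4 - r4) ^ 2 + (z5 - r5) ^ 2 + (z6 - r6) ^ 2) →
      (∀ r : ℚ, r = r1 ∨ r = r2 ∨ r = r3 ∨ r = r4 ∨ r = r5 ∨ r = r6 →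
        r = 1 / 4 ∨ r = 1 / 2 ∨ r = 3 / 4) →
      1 / 4 ≤ (z1 - 1 / 2) ^ 2 + (z2 - 1 / 2) ^ 2 + (z3 - 1 / 2) ^ 2 + (z4 - 1 / 2) ^ 2 +
        (z5 - 1 / 2) ^ 2 + (z6 - 1 / 2) ^ 2 ∧
      ((z1 - 1 / 2) ^ 2 + (z2 - 1 / 2) ^ 2 + (z3 - 1 / 2) ^ 2 + (z4 - 1 / 2) ^ 2 +
        (z5 - 1 / 2) ^ 2 + (z6 - 1 / 2) ^ 2 = 1 / 4 →
        ∀ i j : Fin 4, i < j → Int.fract (p i - p j) = 1 / 4 ∨ Int.fract (p i - p j) = 1 / 2 ∨
          Int.fract (p i - p j) = 3 / 4) := by
    intro r1 r2 r3 r4 r5 r6 h hr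
    constructor
    · rw [h]
      have q1 := sq_nonneg (z1 - r1)
      have q2 := sq_nonneg (z2 - r2)
      have q3 := sq_nonneg (z3 - r3)
      have q4 := sq_nonneg (z4 - r4)
      have q5 := sq_nonneg (z5 - r5)
      have q6 := sq_nonneg (z6 - r6)
      linarith
    · intro h0
      have hs : (z1 - r1) ^ 2 + (z2 - r2) ^ 2 + (z3 - r3) ^ 2 + (z4 - r4) ^ 2 +
          (z5 - r5) ^ 2 + (z6 - r6) ^ 2 = 0 := by linarith
      have e : ∀ y : ℚ, y ^ 2 ≤ 0 → y = 0 := fun y hy =>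
        pow_eq_zero_iff two_ne_zero |>.mp (le_antisymm hy (sq_nonneg y))
      have q1 := sq_nonneg (z1 - r1)
      have q2 := sq_nonneg (z2 - r2)
      have q3 := sq_nonneg (z3 - r3)
      have q4 := sq_nonneg (z4 - r4)
      have q5 := sq_nonneg (z5 - r5)
      have q6 := sq_nonneg (z6 - r6)
      have e1 : z1 = r1 := sub_eq_zero.mp (e _ (by linarith))
      have e2 : z2 = r2 := sub_eq_zero.mp (e _ (by linarith))
      have e3 : z3 = r3 := sub_eq_zero.mp (e _ (by linarith))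
      have e4 : z4 = r4 := sub_eq_zero.mp (e _ (by linarith))
      have e5 : z5 = r5 := sub_eq_zero.mp (e _ (by linarith))
      have e6 : z6 = r6 := sub_eq_zero.mp (e _ (by linarith))
      intro i j hij
      fin_cases i <;> fin_cases j <;> first
        | exact absurd hij (by decide)
        | (simp only [Fin.mk_zero, Fin.mk_one, Fin.reduceFinMk]
           first
             | (rw [hz1]; exact hr z1 (by simp [e1]))
             | (rw [hz2]; exact hr z2 (by simp [e2]))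
             | (rw [hz3]; exact hr z3 (by simp [e3]))
             | (rw [hz4]; exact hr z4 (by simp [e4]))
             | (rw [hz5]; exact hr z5 (by simp [e5]))
             | (rw [hz6]; exact hr z6 (by simp [e6])))
  rcases h1 with h1 | h1 <;> rcases h2 with h2 | h2 <;> rcases h3 with h3 | h3 <;>
    rcases h4 with h4 | h4
  all_goals first
    | (exfalso; linarith)
    | skip
  · refine key (1 / 4) (1 / 2) (3 / 4) (1 / 4) (1 / 2) (1 / 4) ?_ ?_
    · linear_combination (-1 / 4 : ℚ) * h1 - (1 / 4 : ℚ) * h2 - (1 / 4 : ℚ) * h3 - (1 / 4 : ℚ) * h4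
    · intro r hr; rcases hr with h | h | h | h | h | h <;> rw [h] <;> norm_num
  · refine key (1 / 4) (3 / 4) (1 / 2) (1 / 2) (1 / 4) (3 / 4) ?_ ?_
    · linear_combination (-1 / 4 : ℚ) * h1 - (1 / 4 : ℚ) * h2 + (1 / 4 : ℚ) * h3 + (1 / 4 : ℚ) * h4
    · intro r hr; rcases hr with h | h | h | h | h | h <;> rw [h] <;> norm_num
  · refine key (1 / 2) (3 / 4) (1 / 4) (1 / 4) (3 / 4) (1 / 2) ?_ ?_
    · linear_combination (-1 / 4 : ℚ) * h1 + (1 / 4 : ℚ) * h2 + (1 / 4 : ℚ) * h3 - (1 / 4 : ℚ) * h4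
    · intro r hr; rcases hr with h | h | h | h | h | h <;> rw [h] <;> norm_num
  · refine key (1 / 2) (1 / 4) (3 / 4) (3 / 4) (1 / 4) (1 / 2) ?_ ?_
    · linear_combination (1 / 4 : ℚ) * h1 - (1 / 4 : ℚ) * h2 - (1 / 4 : ℚ) * h3 + (1 / 4 : ℚ) * h4
    · intro r hr; rcases hr with h | h | h | h | h | h <;> rw [h] <;> norm_num
  · refine key (3 / 4) (1 / 4) (1 / 2) (1 / 2) (3 / 4) (1 / 4) ?_ ?_
    · linear_combination (1 / 4 : ℚ) * h1 + (1 / 4 : ℚ) * h2 - (1 / 4 : ℚ) * h3 - (1 / 4 : ℚ) * h4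
    · intro r hr; rcases hr with h | h | h | h | h | h <;> rw [h] <;> norm_num
  · refine key (3 / 4) (1 / 2) (1 / 4) (3 / 4) (1 / 2) (3 / 4) ?_ ?_
    · linear_combination (1 / 4 : ℚ) * h1 + (1 / 4 : ℚ) * h2 + (1 / 4 : ℚ) * h3 + (1 / 4 : ℚ) * h4
    · intro r hr; rcases hr with h | h | h | h | h | h <;> rw [h] <;> norm_num

/-- The order function of the blocks of type `3A_1 + A_3`. -/
theorem nine_aux (a : Fin 3 → ℤ) (e : Fin 4 → ℤ) (x : ℚ) (h : ¬ (DeepHalf a x ∧ DeepQuarter e x)) :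
    0 < -(1 : ℚ) / 8 + 1 / 2 * (∑ i, ter (a i * x) +
      ∑ i, ∑ k ∈ Finset.univ.filter (i < ·), ter (((e i - e k : ℤ) : ℚ) * x)) := by
  have h6 : ∑ i, ∑ k ∈ Finset.univ.filter (i < ·), ter (((e i - e k : ℤ) : ℚ) * x) =
      ter (e 0 * x - e 1 * x) + ter (e 0 * x - e 2 * x) + ter (e 0 * x - e 3 * x) +
        ter (e 1 * x - e 2 * x) + ter (e 1 * x - e 3 * x) + ter (e 2 * x - e 3 * x) := by
    have hs : ∀ i k, ((e i - e k : ℤ) : ℚ) * x = e i * x - e k * x := fun i k => by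
      push_cast; ring
    simp only [hs, Finset.sum_filter, Fin.sum_univ_succ]
    simp
    ring
  obtain ⟨c1, c2⟩ := circle_four (fun i => (e i : ℚ) * x)
  have h3 : 0 ≤ ∑ i, ter (a i * x) := Finset.sum_nonneg fun i _ => ter_nonneg _
  rw [h6]
  rcases lt_or_eq_of_le c1 with c | c
  · linarith
  have c3 := c2 c.symm
  -- the four points are equidistant
  have dq : DeepQuarter e x := by
    have lt : ∀ i j : Fin 4, i < j → (∃ n : ℤ, 4 * ((e i - e j : ℤ) : ℚ) * x = n) ∧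
        ∀ n : ℤ, ((e i - e j : ℤ) : ℚ) * x ≠ n := by
      intro i j hij
      have hf := c3 i j hij
      have hfl := Int.floor_add_fract ((e i : ℚ) * x - e j * x)
      set f := ⌊(e i : ℚ) * x - e j * x⌋ with hfdef
      have hs : ((e i - e j : ℤ) : ℚ) * x = e i * x - e j * x := by push_cast; ring
      constructor
      · rcases hf with hf | hf | hf
        · exact ⟨4 * f + 1, by rw [mul_assoc, hs, ← hfl, hf]; push_cast; ring⟩
        · exact ⟨4 * f + 2, by rw [mul_assoc, hs, ← hfl, hf]; push_cast; ring⟩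
        · exact ⟨4 * f + 3, by rw [mul_assoc, hs, ← hfl, hf]; push_cast; ring⟩
      · intro n hn
        rw [hs] at hn
        have : Int.fract ((e i : ℚ) * x - e j * x) = 0 := by rw [hn]; exact Int.fract_intCast n
        rw [this] at hf
        norm_num at hf
    intro i j hij
    rcases lt_or_gt_of_ne hij with h | h
    · exact lt i j h
    · obtain ⟨⟨n, hn⟩, h2⟩ := lt j i h
      refine ⟨⟨-n, ?_⟩, fun m hm => h2 (-m) ?_⟩
      · push_cast at hn ⊢; linarith
      · push_cast at hm ⊢; linarith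
  have hdh : ¬ DeepHalf a x := fun h' => h ⟨h', dq⟩
  unfold DeepHalf at hdh
  push Not at hdh
  obtain ⟨j, hj⟩ := hdh
  have hlt : 0 < ∑ i, ter (a i * x) :=
    Finset.sum_pos' (fun i _ => ter_nonneg _) ⟨j, Finset.mem_univ _, ter_pos hj⟩
  linarith

/-- MODULE N. -/
theorem nine : NineStatement := by
  intro a e x h
  have := nine_aux a e x h
  unfold ter at this
  unfold nineOrd
  linarith

end Pool.Agent.H73.ED
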