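import Pool.Agent.H50.ED.Spec

/-!
# Theta blocks: scaling, the parity criterion, and Lagrange's four squares
-/

namespace Pool.Agent.H73.ED

open Pool.Agent.H50.ED
open scoped BigOperators

/-- If one of the three numbers is odd, there is no deep point. -/
theorem no_deep (a : Fin 3 → ℤ) (e : Fin 4 → ℤ) (j : Fin 3) (hj : Odd (a j)) (x : ℚ) :
    ¬ (DeepHalf a x ∧ DeepQuarter e x) := by
  rintro ⟨h1, h2⟩
  obtain ⟨n, hn⟩ := h1 j
  obtain ⟨k, hk⟩ := hj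
  -- a pair with `4 (e i - e j) x` odd
  have key : ∀ p q : Fin 4, p ≠ q → ∀ m : ℤ, 4 * ((e p - e q : ℤ) : ℚ) * x = m → ¬ Odd m := by
    rintro p q hpq m hm ⟨r, hr⟩
    -- `a (e p - e q) x * 2 = (e p - e q) (2n+1)`
    have h3 : (a j : ℚ) * m * 2 = 4 * ((e p - e q : ℤ) : ℚ) * (2 * n + 1) := by
      rw [← hm]
      have : (a j : ℚ) * x * 2 = 2 * n + 1 := by rw [hn]; ring
      calc (a j : ℚ) * (4 * ((e p - e q : ℤ) : ℚ) * x) * 2
          = 4 * ((e p - e q : ℤ) : ℚ) * ((a j : ℚ) * x * 2) := by ring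
        _ = _ := by rw [this]
    have h4 : a j * m * 2 = 4 * (e p - e q) * (2 * n + 1) := by exact_mod_cast h3
    rw [hk, hr] at h4
    have h5 : (2 * k + 1) * (2 * r + 1) = 2 * ((e p - e q) * (2 * n + 1)) := by linarith
    have h6 : Odd ((2 * k + 1) * (2 * r + 1)) := by
      rw [Int.odd_mul]; exact ⟨⟨k, rfl⟩, ⟨r, rfl⟩⟩
    rw [h5] at h6
    exact (Int.not_odd_iff_even.mpr ⟨_, two_mul _⟩) h6
  obtain ⟨⟨m1, hm1⟩, n1⟩ := h2 0 1 (by decide)
  obtain ⟨⟨m2, hm2⟩, n2⟩ := h2 1 2 (by decide)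
  obtain ⟨⟨m3, hm3⟩, n3⟩ := h2 0 2 (by decide)
  have o1 := Int.not_odd_iff_even.mp (key 0 1 (by decide) m1 hm1)
  have o2 := Int.not_odd_iff_even.mp (key 1 2 (by decide) m2 hm2)
  have o3 := Int.not_odd_iff_even.mp (key 0 2 (by decide) m3 hm3)
  obtain ⟨r1, hr1⟩ := o1
  obtain ⟨r2, hr2⟩ := o2
  obtain ⟨r3, hr3⟩ := o3
  have hs : m1 + m2 = m3 := by
    have : (m1 : ℚ) + m2 = m3 := by
      rw [← hm1, ← hm2, ← hm3]; push_cast; ring
    exact_mod_cast this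
  -- none of the `m` is divisible by 4
  have nd : ∀ (p q : Fin 4) (m r : ℤ), 4 * ((e p - e q : ℤ) : ℚ) * x = m → m = r + r →
      (∀ n : ℤ, ((e p - e q : ℤ) : ℚ) * x ≠ n) → ¬ Even r := by
    rintro p q m r hm hr hn ⟨s, hs⟩
    apply hn s
    have : 4 * (((e p - e q : ℤ) : ℚ) * x) = 4 * s := by
      rw [← mul_assoc, hm, hr, hs]; push_cast; ring
    linarith
  have e1 := Int.not_even_iff_odd.mp (nd 0 1 m1 r1 hm1 hr1 n1)
  have e2 := Int.not_even_iff_odd.mp (nd 1 2 m2 r2 hm2 hr2 n2)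
  have e3 := Int.not_even_iff_odd.mp (nd 0 2 m3 r3 hm3 hr3 n3)
  have h : r1 + r2 = r3 := by omega
  obtain ⟨s1, hs1⟩ := e1
  obtain ⟨s2, hs2⟩ := e2
  obtain ⟨s3, hs3⟩ := e3
  omega

/-- A block of type `3A_1 + A_3`, in coordinates. -/
theorem wt3_of (d : ℕ) (a b c e0 e1 e2 e3 : ℤ) (ha : a ≠ 0) (hb : b ≠ 0) (hc : c ≠ 0)
    (h01 : e0 ≠ e1) (h02 : e0 ≠ e2) (h03 : e0 ≠ e3) (h12 : e1 ≠ e2) (h13 : e1 ≠ e3)
    (h23 : e2 ≠ e3)
    (h : a ^ 2 + b ^ 2 + c ^ 2 + (4 * (e0 ^ 2 + e1 ^ 2 + e2 ^ 2 + e3 ^ 2) -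
      (e0 + e1 + e2 + e3) ^ 2) = 2 * (d : ℤ))
    (ho : Odd a ∨ Odd b ∨ Odd c) : Wt3 d := by
  refine ⟨![a, b, c], ![e0, e1, e2, e3], ?_, ?_, ?_, ?_⟩
  · intro j
    fin_cases j
    · exact ha
    · exact hb
    · exact hc
  · intro i j hij
    fin_cases i <;> fin_cases j <;> simp_all
  · rw [← h]
    simp [Fin.sum_univ_succ, Finset.sum_filter]
    ring
  · intro x
    rcases ho with h | h | h
    · exact no_deep _ _ 0 h x
    · exact no_deep _ _ 1 h x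
    · exact no_deep _ _ 2 h x

/-- Scaling of the blocks. -/
theorem wt3_scale {t : ℕ} (h : Wt3 t) {n : ℕ} (hn : n ≠ 0) : Wt3 (t * n ^ 2) := by
  obtain ⟨a, e, h1, h2, h3, h4⟩ := h
  have hn' : (n : ℤ) ≠ 0 := by exact_mod_cast hn
  refine ⟨fun j => n * a j, fun j => n * e j, fun j => mul_ne_zero hn' (h1 j), ?_, ?_, ?_⟩
  · intro i j hij
    exact h2 (mul_left_cancel₀ hn' hij)
  · have e1 : ∑ j, ((n : ℤ) * a j) ^ 2 = n ^ 2 * ∑ j, a j ^ 2 := by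
      rw [Finset.mul_sum]; exact Finset.sum_congr rfl (fun j _ => by ring)
    have e2 : ∑ i, ∑ j ∈ Finset.univ.filter (i < ·), ((n : ℤ) * e i - n * e j) ^ 2 =
        n ^ 2 * ∑ i, ∑ j ∈ Finset.univ.filter (i < ·), (e i - e j) ^ 2 := by
      rw [Finset.mul_sum]
      refine Finset.sum_congr rfl (fun i _ => ?_)
      rw [Finset.mul_sum]
      exact Finset.sum_congr rfl (fun j _ => by ring)
    rw [e1, e2, ← mul_add, h3]
    push_cast
    ring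
  · rintro x ⟨k1, k2⟩
    refine h4 (n * x) ⟨?_, ?_⟩
    · intro j
      obtain ⟨m, hm⟩ := k1 j
      refine ⟨m, ?_⟩
      rw [← hm]
      push_cast
      ring
    · intro i j hij
      obtain ⟨⟨m, hm⟩, k⟩ := k2 i j hij
      refine ⟨⟨m, ?_⟩, fun r hr => k r ?_⟩
      · rw [← hm]; push_cast; ring
      · rw [← hr]; push_cast; ring

/-- LAGRANGE: `t = A^2 + B^2 + 2m` with `m = 23` modulo 24. Then `m` is a sum of four squares, three
of them odd and not all equal. -/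
theorem lagrange_one (A B : ℤ) (m : ℕ) (hm : m % 24 = 23) (h1 : A + B ≠ 0) (h2 : A - B ≠ 0)
    (t : ℕ) (ht : (t : ℤ) = A ^ 2 + B ^ 2 + 2 * m) : Wt3 t := by
  -- the core: `s` even, the others odd, `r ≠ p`
  have core : ∀ p q r s : ℕ, p ^ 2 + q ^ 2 + r ^ 2 + s ^ 2 = m → p % 2 = 1 → q % 2 = 1 →
      r % 2 = 1 → s % 2 = 0 → r ≠ p → Wt3 t := by
    intro p q r s hs hp hq hr hs2 hrp
    have hs' : (p : ℤ) ^ 2 + q ^ 2 + r ^ 2 + s ^ 2 = m := by exact_mod_cast hs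
    refine wt3_of t (A + B) (A - B) ((p : ℤ) - q + r + s) p (-q) r s h1 h2 (by omega) (by omega)
      (by omega) (by omega) (by omega) (by omega) (by omega) ?_ ?_
    · rw [ht, ← hs']; ring
    · right; right
      rw [Int.odd_iff]
      omega
  -- three odd numbers which are not all equal
  have core2 : ∀ p q r s : ℕ, p ^ 2 + q ^ 2 + r ^ 2 + s ^ 2 = m → p % 2 = 1 → q % 2 = 1 →
      r % 2 = 1 → s % 2 = 0 → Wt3 t := by
    intro p q r s hs hp hq hr hs2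
    by_cases hrp : r = p
    · by_cases hqp : q = p
      · exfalso
        rw [hrp, hqp] at hs
        have h3 : (s ^ 2) % 3 = 2 := by
          have h4 : 3 * p ^ 2 + s ^ 2 = m := by rw [← hs]; ring
          omega
        have : s % 3 = 0 ∨ s % 3 = 1 ∨ s % 3 = 2 := by omega
        rcases this with h | h | h <;> simp [Nat.pow_mod, h] at h3
      · exact core p r q s (by rw [← hs]; ring) hp hr hq hs2 hqp
    · exact core p q r s hs hp hq hr hs2 hrp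
  obtain ⟨a, b, c, e, hs⟩ := Nat.sum_four_squares m
  have sq8 : ∀ x : ℕ, (x % 2 = 1 ∧ x ^ 2 % 8 = 1) ∨ (x % 2 = 0 ∧ (x ^ 2 % 8 = 0 ∨ x ^ 2 % 8 = 4)) := by
    intro x
    have : x % 8 < 8 := Nat.mod_lt _ (by norm_num)
    have h2 : x ^ 2 % 8 = (x % 8) ^ 2 % 8 := by rw [Nat.pow_mod]
    have h3 : x % 2 = (x % 8) % 2 := by omega
    rw [h2, h3]
    interval_cases x % 8 <;> simp
  have ha := sq8 a
  have hb := sq8 b
  have hc := sq8 c
  have he := sq8 e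
  have h8 : (a ^ 2 + b ^ 2 + c ^ 2 + e ^ 2) % 8 = 7 := by rw [hs]; omega
  rcases ha with ⟨a1, a2⟩ | ⟨a1, a2⟩ <;> rcases hb with ⟨b1, b2⟩ | ⟨b1, b2⟩ <;>
    rcases hc with ⟨c1, c2⟩ | ⟨c1, c2⟩ <;> rcases he with ⟨e1, e2⟩ | ⟨e1, e2⟩
  all_goals first
    | exact core2 a b c e hs a1 b1 c1 e1
    | exact core2 a b e c (by rw [← hs]; ring) a1 b1 e1 c1
    | exact core2 a e c b (by rw [← hs]; ring) a1 e1 c1 b1
    | exact core2 e b c a (by rw [← hs]; ring) e1 b1 c1 a1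
    | (exfalso; omega)

end Pool.Agent.H73.ED
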